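import Mathlib
import Pool.Agent.Lib.MP_89bcae_ag.Ze.Eq
import Pool.Agent.Lib.MP_89bcae_ag.Zt.FinE

/-!
# The Tate conjecture for cyclic coverings of rational surfaces

The definitions are in `Pool.Agent.Lib.MP_89bcae_ag.Ze.Defs` (`poly`, `IsBranch`, `IsChart`, `IsCentre`, `unramified`, `points`,
`galois`), `Pool.Agent.Lib.MP_89bcae_ag.Ze.DefsR` (`powers`, `IsLarge`, `IsTwisted`, `IsLift`),
`Pool.Agent.Lib.MP_89bcae_ag.Ze.DefsS` (`IsPairing`, `IsEndomorphism`, `IsInducedBy`, `IsSymplectic`, `IsOrthogonal`, `HasLargeImage`,
`IsAdmissible`), `Pool.Agent.Lib.MP_89bcae_ag.Zp.Defs` (`IsSmoothAt`), `Pool.Agent.Lib.MP_89bcae_ag.Z.Defs` (`IsCoverField`, `ext`,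
`val`), `Pool.Agent.Lib.MP_89bcae_ag.Bra.Defs` (`BrauerInvariantsTrivial`) and `Pool.Agent.Lib.MP_89bcae_ag.Zt.DefsT`
(`BrauerInvariantsTrivialOne`).
-/

open Polynomial

open Pool.Agent.Lib.MP_89bcae_ag.Ze

open Pool.Agent.Lib.MP_89bcae_ag.Zs (IsCoverField)

open Pool.Agent.Lib.MP_89bcae_ag.Bra (BrauerInvariantsTrivial)

open Pool.Agent.Lib.MP_89bcae_ag.Zt (BrauerInvariantsTrivialOne)

/-- Let `ℓ` be a prime number, `k` a field in which `ℓ ≠ 0`, `F` an algebraic closure of `k`, `f ∈ k[t][x]` monic in `x` of degree
prime to `ℓ`, without multiple roots over `F(t)`, and `p` the polynomial `f` over `F(t)`. Let `G` be the Galois group of `F` over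
the field generated by `k` and the `ℓ`-th roots of unity, `U` the group of the elements of the algebra `F(t)[x] / (p)` which are
unramified, and `V` the group of the classes of the points over `F(t)` of the Jacobian of the curve `y ^ ℓ = p(x)`; or let `f` be
irreducible over `F(t)` and `V` the group of the `ℓ`-th powers. Suppose that each subgroup `N` with `V < N ≤ U`, stable under
`G`, with `N / V` of order `ℓ ^ r`, satisfies one of the criteria of `IsAdmissible`: the image of `G` in the group of the
automorphisms of `N / V` is large, or `N / V` does not lift to a module over the ring generated over `ℤ_ℓ` by the `ℓ`-th roots of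
unity with an action of a finite group. Then `V` is the group of the classes of the points. Let `K` be the function field of the
surface `y ^ ℓ = f(t, x)` over `F`. For all finite extensions `k'` of `k` in `F`, the `ℓ`-adic Tate module of the Brauer group of a
smooth projective model has no nonzero element fixed by the automorphisms over `k'(t, x, y)`. If the image of `G` in the group of the
automorphisms of `U / V` contains a symplectic group or an orthogonal group, with the inequalities of `HasLargeImage`, then there is one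
automorphism over `k(t, x, y)` no power of which fixes a nonzero element of this Tate module. -/
theorem Pool.Agent.Results.MP_89bcae_ag.BrauerCover.result {ℓ : ℕ} [Fact ℓ.Prime] {k F : Type} [Field k]
    [Field F] [Algebra k F] [IsAlgClosure k F] (hk : (ℓ : k) ≠ 0) {f : k[X][X]}
    (hB : IsBranch ℓ F (RatFunc F) f) {p : (RatFunc F)[X]} (hp : p = poly F (RatFunc F) f)
    {G : Subgroup (AdjoinRoot p ≃+* AdjoinRoot p)} (hG : G = galois ℓ k F p)
    {U V : Subgroup (AdjoinRoot p)ˣ} (hU : U = unramified ℓ F p)
    (hV : V = points ℓ p ∨ V = powers ℓ (AdjoinRoot p) ∧ Irreducible p) (hC : IsAdmissible ℓ G U V) :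
    V = points ℓ p ∧
      ∀ (K S : Type) [Field K] [Algebra F K] [Field S] [Algebra K S] [IsAlgClosure K S] (t x y : K),
        IsCoverField ℓ F f t x y →
          (∀ k' : IntermediateField k F, FiniteDimensional k k' → BrauerInvariantsTrivial ℓ S k' t x y) ∧
          ((∃ r : ℕ, V.relIndex U = ℓ ^ r ∧ HasLargeImage ℓ G V U r) →
            BrauerInvariantsTrivialOne ℓ k F S t x y) := by
  subst hG hU
  have hV' : V = points ℓ p := by
    rcases hV with h | ⟨h, hirr⟩
    · exact h
    · refine le_antisymm (h.trans_le (powers_le_points p)) ?_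
      rw [h]
      rw [h] at hC
      exact points_le_powers hk hB hp.symm hirr hC
  subst hV'
  refine ⟨rfl, fun K S _ _ _ _ _ t x y hK => ⟨brauer_of_rigid hk hB hp.symm hC K S t x y hK, ?_⟩⟩
  rintro ⟨r, hr, h⟩
  exact Pool.Agent.Lib.MP_89bcae_ag.Zt.one_of_large hk hB hp.symm hC hr h K S t x y hK
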