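import Mathlib
import Pool.Agent.Lib.MP_89bcae_ag.Ep.Fin
import Pool.Agent.Lib.MP_89bcae_ag.Ep.Exa

/-!
# The Tate conjecture for the cyclic coverings of the plane branched along two embedded lines

The other definitions are in `Pool.Agent.Lib.MP_89bcae_ag.El.Defs` (`IsLine`, `surf`), `Pool.Agent.Lib.MP_89bcae_ag.Z.Defs`
(`IsCoverField`), `Pool.Agent.Lib.MP_89bcae_ag.Bra.Defs` (`BrauerInvariantsTrivial`) and `Pool.Agent.Lib.MP_89bcae_ag.Zt.DefsT`
(`BrauerInvariantsTrivialOne`).
-/

open Polynomial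

open scoped Classical

namespace Pool.Agent.Results.MP_89bcae_ag.BrauerFamily

open Pool.Agent.Lib.MP_89bcae_ag.Zs (IsCoverField)

open Pool.Agent.Lib.MP_89bcae_ag.Bra (BrauerInvariantsTrivial)

open Pool.Agent.Lib.MP_89bcae_ag.Zt (BrauerInvariantsTrivialOne)

open Pool.Agent.Lib.MP_89bcae_ag.El (IsLine surf)

section

variable {k : Type} [Field k]

/-- All the even permutations of the roots of `p` in `F` are induced by automorphisms of `F` over `k`. -/
def InducesEven (F : Type) [Field F] [Algebra k F] (p : k[X]) : Prop :=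
  ∀ g : Equiv.Perm (p.rootSet F), g ∈ alternatingGroup (p.rootSet F) →
    ∃ σ : F ≃ₐ[k] F, ∀ s : p.rootSet F, σ (s : F) = g s

/-- Let `K` be the function field over `F` of the surface `y ^ ℓ = f(t, x)`. For all finite extensions `k'` of `k` in `F`, the
`ℓ`-adic Tate module of the Brauer group of a smooth projective model has no nonzero element fixed by the automorphisms over
`k'(t, x, y)`. -/
def SurfaceTate (ℓ : ℕ) (F : Type) [Field F] [Algebra k F] (f : k[X][X]) : Prop :=
  ∀ (K S : Type) [Field K] [Algebra F K] [Field S] [Algebra K S] [IsAlgClosure K S] (t x y : K),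
    IsCoverField ℓ F f t x y →
      ∀ k' : IntermediateField k F, FiniteDimensional k k' → BrauerInvariantsTrivial ℓ S k' t x y

/-- Let `K` be the function field over `F` of the surface `y ^ ℓ = f(t, x)`. There is one automorphism over `k(t, x, y)` no power
of which fixes a nonzero element of the `ℓ`-adic Tate module of the Brauer group of a smooth projective model. -/
def SurfaceTateOne (ℓ : ℕ) (F : Type) [Field F] [Algebra k F] (f : k[X][X]) : Prop :=
  ∀ (K S : Type) [Field K] [Algebra F K] [Field S] [Algebra K S] [IsAlgClosure K S] (t x y : K),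
    IsCoverField ℓ F f t x y → BrauerInvariantsTrivialOne ℓ k F S t x y

end

/-- Let `ℓ` be a prime number, let `k` be a field of characteristic different from `ℓ`, with algebraic closure `F`, and let
`t = q(s)`, `x = p(s)` be an embedded line, with the equation `g(t, x) = 0` (`IsLine`: `p` and `q` generate `k[s]`, and `g` is monic
of degree `deg q` in `x`, with `g(q(s), p(s)) = 0`). Suppose that the derivative of `q` is not `0`, that `ℓ` does not divide
`deg q + 1`, that `ℓ` divides `e`, that `deg p = e deg q ≥ 8`, that `p` has no multiple roots, and that all the even permutations of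
the roots of `p` are induced by automorphisms of `F` over `k`. Then `SurfaceTate` is true for the surface `y ^ ℓ = x g(t, x)`, and if
the degree of `p` is even then `SurfaceTateOne` is true for it. The second part: for all monic `q` and all `a` the curve
`q(x - a(t)) = t` is an embedded line, with `p = a(q(s)) + s`. The third part: `SurfaceTate` is true for `k = ℚ` and the surface
`y ^ ℓ = x ((x - (1 - t ^ d)) ^ m - t)`, where `ℓ` is a prime number which divides `d` and does not divide `m + 1`, and `m d ≥ 8`;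
if `m d` is even then `SurfaceTateOne` is also true for it. -/
theorem result :
    (∀ {ℓ : ℕ} {k F : Type} [Field k] [Field F] [Algebra k F] [IsAlgClosure k F] {p q : k[X]} {g : k[X][X]} {e : ℕ},
      ℓ.Prime → (ℓ : k) ≠ 0 → IsLine p q g → derivative q ≠ 0 → (q.natDegree + 1).Coprime ℓ → ℓ ∣ e →
        p.natDegree = e * q.natDegree → 8 ≤ p.natDegree → p.Separable → InducesEven F p →
          SurfaceTate ℓ F (surf g) ∧ (Even p.natDegree → SurfaceTateOne ℓ F (surf g))) ∧
    (∀ {k : Type} [Field k] (a : k[X]) {q : k[X]}, q.Monic → q.natDegree ≠ 0 →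
      IsLine (a.comp q + X) q ((q.map C).comp (X - C a) - C X)) ∧
    ∀ {ℓ : ℕ} {F : Type} [Field F] [Algebra ℚ F] [IsAlgClosure ℚ F] {m d : ℕ}, ℓ.Prime → (m + 1).Coprime ℓ → ℓ ∣ d →
      8 ≤ m * d →
        SurfaceTate ℓ F (surf ((X - C (1 - X ^ d : ℚ[X])) ^ m - C X)) ∧
          (Even (m * d) → SurfaceTateOne ℓ F (surf ((X - C (1 - X ^ d : ℚ[X])) ^ m - C X))) := by
  have key : ∀ {ℓ : ℕ} {k F : Type} [Field k] [Field F] [Algebra k F] [IsAlgClosure k F] {p q : k[X]} {g : k[X][X]} {e : ℕ},
      ℓ.Prime → (ℓ : k) ≠ 0 → IsLine p q g → derivative q ≠ 0 → (q.natDegree + 1).Coprime ℓ → ℓ ∣ e →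
        p.natDegree = e * q.natDegree → 8 ≤ p.natDegree → p.Separable → InducesEven F p →
          SurfaceTate ℓ F (surf g) ∧ (Even p.natDegree → SurfaceTateOne ℓ F (surf g)) := by
    intro ℓ k F _ _ _ _ p q g e hℓ hk hl hd hm he hp h8 hs hG
    have : Fact ℓ.Prime := ⟨hℓ⟩
    have hE : Pool.Agent.Lib.MP_89bcae_ag.Ep.IsExample ℓ F p q g := ⟨hl, hd, hm, ⟨e, he, hp⟩, h8, hs, hG⟩
    exact ⟨fun K S _ _ _ _ _ t x y hK k' hk' => Pool.Agent.Lib.MP_89bcae_ag.Ep.brauer_surf hk hE K S t x y hK k' hk',
      fun hn K S _ _ _ _ _ t x y hK => Pool.Agent.Lib.MP_89bcae_ag.Ep.brauer_surf_one hk hE hn K S t x y hK⟩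
  refine ⟨key, ?_, ?_⟩
  · intro k _ a q hq hq0
    exact Pool.Agent.Lib.MP_89bcae_ag.El.isLine_curve a hq hq0
  · intro ℓ F _ _ _ m d hℓ hm hd hmd
    have hm0 : m ≠ 0 := by
      rintro rfl
      omega
    have hdeg := Pool.Agent.Lib.MP_89bcae_ag.Ep.natDegree_rat hmd
    have h1 := key (F := F) (e := d) hℓ (by exact_mod_cast hℓ.ne_zero) (Pool.Agent.Lib.MP_89bcae_ag.Ep.isLine_rat d hm0)
      (Pool.Agent.Lib.MP_89bcae_ag.Ep.derivative_rat hm0) (by rwa [natDegree_X_pow]) hd
      (by rw [hdeg, natDegree_X_pow]) (by rw [hdeg, mul_comm]; exact hmd)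
      (Pool.Agent.Lib.MP_89bcae_ag.Ep.separable_rat hmd) (fun τ _ => Pool.Agent.Lib.MP_89bcae_ag.El.full_rat hmd τ)
    exact ⟨h1.1, fun h2 => h1.2 (by rw [hdeg, mul_comm]; exact h2)⟩

end Pool.Agent.Results.MP_89bcae_ag.BrauerFamily
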