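import Mathlib
import Pool.Agent.Lib.MP_89bcae_ag.Bk.K057
import Pool.Agent.Lib.MP_89bcae_ag.Bra.DefsL
import Pool.Agent.Lib.MP_89bcae_ag.Bra.DefsP
import Pool.Agent.Lib.MP_89bcae_ag.Bra.PicR
import Pool.Agent.Lib.MP_89bcae_ag.DefsM8

/-!
# The Tate conjecture for the cyclic coverings of prime degree `ℓ` of the plane branched along at least five
lines with independent brackets, over any field

The definitions are in `Pool.Agent.Lib.MP_89bcae_ag.Bra.Defs`, `Pool.Agent.Lib.MP_89bcae_ag.Bra.DefsL`,
`Pool.Agent.Lib.MP_89bcae_ag.Bra.DefsP`,
`Pool.Agent.Lib.MP_89bcae_ag.DefsM8` (`bracket`, `HasPrivatePrimes`) and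
`Pool.Agent.Lib.MP_89bcae_ag.DefsN8` (`IsArrangement`).
-/

open Polynomial Filter Topology

open scoped Classical

open Pool.Agent.Lib.MP_89bcae_ag Pool.Agent.Lib.MP_89bcae_ag.Bra
  Pool.Agent.Lib.MP_89bcae_ag.Superelliptic

/-- Let `v` be a family of `m` lines of the projective plane over a field `k`, `ℓ` a prime number, `W` a
family of natural numbers whose sum is divisible by `ℓ`, such that `ℓ` does not divide `W_i` for at least five
indices, and `i₀` one of these indices. We say that `LineCoverTate ℓ v W i₀` holds if the following is true.
Let `F` be an algebraic closure of `k` and `K = F(X, Y, y)` the function field of the cyclic covering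
`y ^ ℓ = ∏ (v(i, 0) X + v(i, 1) Y + v(i, 2)) ^ W_i` of the plane. For all finite extensions `k'` of `k` in `F`,
the `ℓ`-adic Tate module of the Brauer group of a smooth projective model has no nonzero element fixed by the
automorphisms over `k'(X, Y, y)`. There are affine coordinates `x`, `t` of the plane over `k` such that the
line `i₀` is the line at infinity and the other branch lines are `x = α_i(t)`, the `α_i - α_j` being
nonconstant with separable product; and for all of them, the `ℓ`-th powers of the elements of the Picard group
of the integral closure of `F(t)[x]` in `K` (the group of the points over `F(t)` of the Jacobian of the generic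
fibre) are `ℓ ^ n`-th powers for all `n`.

First part: this holds, for all fields `k` of characteristic different from `ℓ`, if the brackets (the
determinants of three of the lines, in increasing order) are independent in the quotient of the multiplicative
group of `k` by the subgroup of the `w ^ ℓ` and `-w ^ ℓ`.

Second part: let the lines have integral coefficients, and let every bracket of three different lines have a
prime divisor which divides it exactly once and does not divide the brackets of the other sets of three lines.
Then, for all prime numbers `ℓ`, the brackets are independent over `ℚ` in the sense of the first part, and, if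
`ℓ ≠ 2`, `LineCoverTate ℓ v W i₀` holds over `ZMod q` for infinitely many prime numbers `q`.

Third part: the proportion of the families satisfying the hypothesis of the second part among the families of
`m` lines with integral coefficients of absolute value at most `H` tends to `1` as `H` tends to infinity. -/
theorem Pool.Agent.Results.MP_89bcae_ag.BrauerLines.result (m : ℕ) :
    (∀ ℓ : ℕ, ℓ.Prime → ∀ (k : Type) [Field k], (ℓ : k) ≠ 0 → ∀ v : Fin m × Fin 3 → k,
      HasIndependentBrackets ℓ v → ∀ (W : Fin m → ℕ) (i₀ : Fin m), IsAdmissible ℓ W i₀ →
        LineCoverTate ℓ v W i₀) ∧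
    (∀ v : Fin m × Fin 3 → ℤ, HasPrivatePrimes v → ∀ ℓ : ℕ, ℓ.Prime →
      HasIndependentBrackets ℓ (fun p => (v p : ℚ)) ∧
      (ℓ ≠ 2 → ∀ (W : Fin m → ℕ) (i₀ : Fin m), IsAdmissible ℓ W i₀ → ∀ N : ℕ,
        ∃ (q : ℕ) (_ : Fact q.Prime), N < q ∧ LineCoverTate ℓ (fun p => (v p : ZMod q)) W i₀)) ∧
    Tendsto (fun H : ℕ => ({v : Fin m × Fin 3 → ℤ | (∀ i, |v i| ≤ H) ∧
      HasPrivatePrimes v}.ncard : ℝ) / (2 * H + 1) ^ (3 * m)) atTop (𝓝 1) := by
  simp only [lineCoverTate_iff]
  exact linesBrauer m
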