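import Mathlib
import Pool.Agent.Lib.MP_89bcae_ag.Xe.Fin
import Pool.Agent.Lib.MP_89bcae_ag.Xe.DFin

/-!
# The Tate conjecture for the elliptic surfaces with a section of order two

The definitions are in `Pool.Agent.Lib.MP_89bcae_ag.Xe.Defs` (`surf`, `disc`, `IsGeneral`),
`Pool.Agent.Lib.MP_89bcae_ag.Z.Defs` (`IsCoverField`, `ext`, `val`), `Pool.Agent.Lib.MP_89bcae_ag.Bra.Defs`
(`BrauerInvariantsTrivial`) and `Pool.Agent.Lib.MP_89bcae_ag.Zt.DefsT` (`BrauerInvariantsTrivialOne`).
-/

open Polynomial Filter Topology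

open Pool.Agent.Lib.MP_89bcae_ag.Xe (surf IsGeneral)

open Pool.Agent.Lib.MP_89bcae_ag.Zs (IsCoverField)

open Pool.Agent.Lib.MP_89bcae_ag.Bra (BrauerInvariantsTrivial)

open Pool.Agent.Lib.MP_89bcae_ag.Zt (BrauerInvariantsTrivialOne)

/-- (1) Let `k` be a field of characteristic different from `2`, `F` an algebraic closure of `k`, `n ≥ 2`, and `a`, `b` in `k[t]`
general: `a` has degree at most `2 n`, `b` and `Δ = a ^ 2 - 4 b` have degree `4 n`, `b Δ` is separable, and all the pairs of a
permutation of the roots of `b` and a permutation of the roots of `Δ` are induced by automorphisms of `F` over `k`. Let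
`K = F(t, x, y)` be the function field of the surface `y ^ 2 = x (x ^ 2 + a(t) x + b(t))`. Then there is one automorphism over
`k(t, x, y)` no power of which fixes a nonzero element of the `2`-adic Tate module of the Brauer group of a smooth
projective model of `K`, and for all finite extensions `k'` of `k` in `F` this Tate module has no nonzero element fixed by the
automorphisms over `k'(t, x, y)`. (2) The proportion of the general pairs among the pairs of polynomials `a`, `b` of
degree at most `2 n` and at most `4 n` whose coefficients are integers in `[- H, H]` tends to `1` as `H` tends to infinity. -/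
theorem Pool.Agent.Results.MP_89bcae_ag.BrauerTwoTorsion.result :
    (∀ (k F : Type) [Field k] [Field F] [Algebra k F] [IsAlgClosure k F] (n : ℕ) (a b : k[X]),
      IsGeneral F n a b → ∀ (K S : Type) [Field K] [Algebra F K] [Field S] [Algebra K S] [IsAlgClosure K S] (t x y : K),
        IsCoverField 2 F (surf a b) t x y → BrauerInvariantsTrivialOne 2 k F S t x y ∧
          ∀ k' : IntermediateField k F, FiniteDimensional k k' → BrauerInvariantsTrivial 2 S k' t x y) ∧
    ∀ (F : Type) [Field F] [Algebra ℚ F] [IsAlgClosure ℚ F] (n : ℕ), 2 ≤ n →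
      Tendsto (fun H : ℕ => ({v : Fin (2 * n + 1) ⊕ Fin (4 * n + 1) → ℤ | (∀ i, |v i| ≤ H) ∧
        IsGeneral F n (∑ i : Fin (2 * n + 1), C (v (Sum.inl i) : ℚ) * X ^ (i : ℕ))
          (∑ i : Fin (4 * n + 1), C (v (Sum.inr i) : ℚ) * X ^ (i : ℕ))}.ncard : ℝ) /
        (2 * H + 1) ^ (6 * n + 2)) atTop (𝓝 1) :=
  ⟨fun k F _ _ _ _ n a b hE K S _ _ _ _ _ t x y h =>
    ⟨Pool.Agent.Lib.MP_89bcae_ag.Xe.one_general hE K S t x y h, fun k' hk' =>
      Pool.Agent.Lib.MP_89bcae_ag.Xe.trivial_of_one (Pool.Agent.Lib.MP_89bcae_ag.Xe.one_general hE K S t x y h) k'⟩,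
    fun F _ _ _ n hn => Pool.Agent.Lib.MP_89bcae_ag.density_general F hn⟩
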